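import Mathlib

/-!
# The oriented cone count of a simplicial cycle

For `k + 2` points of `ℝ^(k+1)` and a point `x` let `G x z` be the orientation sign of the simplex if
it contains `x`, and `0` otherwise.  This is a cocycle (away from codimension two positions), and
therefore the cone count `∑ c σ * G x (y, p σ)` of a cycle does not depend on the apex `y`.
-/

set_option autoImplicit false

open Matrix MeasureTheory Set

namespace Pool.Agent.Work.MP_1c91cf_gt.Cone

open Classical

lemma line_hit {ι : Type*} [Fintype ι] (a d : ι → ℝ) (hpos : ∃ i, 0 < d i) (s : ℝ)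
    (hs : ∀ i, 0 ≤ a i + s * d i) :
    ∃ j, 0 < d j ∧ ∃ s, a j + s * d j = 0 ∧ ∀ i, 0 ≤ a i + s * d i := by
  obtain ⟨i0, hi0⟩ := hpos
  obtain ⟨j, hj, hmax⟩ := Finset.exists_max_image (Finset.univ.filter fun i => 0 < d i)
    (fun i => -a i / d i) ⟨i0, by simpa using hi0⟩
  have hj : 0 < d j := by simpa using hj
  refine ⟨j, hj, -a j / d j, ?_, ?_⟩
  · field_simp
    ring
  · intro i
    by_cases hi : 0 < d i
    · have h1 := hmax i (by simpa using hi)
      have h2 : -a i ≤ (-a j / d j) * d i := by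
        rw [div_le_iff₀ hi] at h1
        exact h1
      linarith
    · push Not at hi
      have h1 : -a j / d j ≤ s := by
        rw [div_le_iff₀ hj]
        linarith [hs j]
      have h2 : s * d i ≤ (-a j / d j) * d i := mul_le_mul_of_nonpos_right h1 hi
      linarith [hs i]

lemma line_uniq {ι : Type*} (a d : ι → ℝ)
    (gen : ∀ s, (∀ i, 0 ≤ a i + s * d i) → ∀ j j', a j + s * d j = 0 → a j' + s * d j' = 0 →
      j = j')
    {j j' : ι} (hj : 0 < d j) (hj' : 0 < d j')
    (h : ∃ s, a j + s * d j = 0 ∧ ∀ i, 0 ≤ a i + s * d i)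
    (h' : ∃ s, a j' + s * d j' = 0 ∧ ∀ i, 0 ≤ a i + s * d i) : j = j' := by
  obtain ⟨s, h1, h2⟩ := h
  obtain ⟨s', h1', h2'⟩ := h'
  have h3 : s' ≤ s := by
    have := h2 j'
    by_contra hcon
    push Not at hcon
    nlinarith
  have h4 : s ≤ s' := by
    have := h2' j
    by_contra hcon
    push Not at hcon
    nlinarith
  have h5 : s = s' := le_antisymm h4 h3
  subst h5
  exact gen s h2 j j' h1 h1'

/-- A line in general position enters and leaves a simplicial cone equally often. -/
lemma line_sum {ι : Type*} [Fintype ι] (a d : ι → ℝ) (hpos : ∃ i, 0 < d i) (hneg : ∃ i, d i < 0)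
    (gen : ∀ s, (∀ i, 0 ≤ a i + s * d i) → ∀ j j', a j + s * d j = 0 → a j' + s * d j' = 0 →
      j = j') :
    ∑ j, (if ∃ s, a j + s * d j = 0 ∧ ∀ i, 0 ≤ a i + s * d i then
      (SignType.sign (d j) : ℤ) else 0) = 0 := by
  by_cases hf : ∃ s, ∀ i, 0 ≤ a i + s * d i
  · obtain ⟨s, hs⟩ := hf
    obtain ⟨j1, hj1, hh1⟩ := line_hit a d hpos s hs
    obtain ⟨j2, hj2, hh2⟩ := line_hit a (fun i => -d i)
      (by obtain ⟨i, hi⟩ := hneg; exact ⟨i, by simpa using hi⟩) (-s) (by intro i; simpa using hs i)
    have hj2 : d j2 < 0 := by simpa using hj2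
    have hh2 : ∃ s, a j2 + s * d j2 = 0 ∧ ∀ i, 0 ≤ a i + s * d i := by
      obtain ⟨s, h1, h2⟩ := hh2
      exact ⟨-s, by linarith, fun i => by linarith [h2 i]⟩
    have key : ∀ j, (if ∃ s, a j + s * d j = 0 ∧ ∀ i, 0 ≤ a i + s * d i then
        (SignType.sign (d j) : ℤ) else 0) = (if j = j1 then 1 else 0) - (if j = j2 then 1 else 0) := by
      intro j
      rcases lt_trichotomy (d j) 0 with hj | hj | hj
      · have hne : j ≠ j1 := by rintro rfl; linarith
        by_cases hh : ∃ s, a j + s * d j = 0 ∧ ∀ i, 0 ≤ a i + s * d i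
        · have : j = j2 := by
            refine line_uniq a (fun i => -d i) ?_ (by simpa using hj) (by simpa using hj2) ?_ ?_
            · intro s h1 i i' h2 h3
              exact gen (-s) (fun l => by linarith [h1 l]) i i' (by linarith) (by linarith)
            · obtain ⟨s, h1, h2⟩ := hh
              exact ⟨-s, by linarith, fun i => by linarith [h2 i]⟩
            · obtain ⟨s, h1, h2⟩ := hh2
              exact ⟨-s, by linarith, fun i => by linarith [h2 i]⟩
          rw [if_pos hh, if_neg hne, if_pos this, sign_neg hj]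
          rfl
        · have : j ≠ j2 := by rintro rfl; exact hh hh2
          rw [if_neg hh, if_neg hne, if_neg this]
          rfl
      · have hne : j ≠ j1 := by rintro rfl; linarith
        have hne2 : j ≠ j2 := by rintro rfl; linarith
        rw [if_neg hne, if_neg hne2, hj, sign_zero]
        simp
      · have hne : j ≠ j2 := by rintro rfl; linarith
        by_cases hh : ∃ s, a j + s * d j = 0 ∧ ∀ i, 0 ≤ a i + s * d i
        · have : j = j1 := line_uniq a d gen hj hj1 hh hh1
          rw [if_pos hh, if_neg hne, if_pos this, sign_pos hj]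
          rfl
        · have : j ≠ j1 := by rintro rfl; exact hh hh1
          rw [if_neg hh, if_neg hne, if_neg this]
          rfl
    rw [Finset.sum_congr rfl fun j _ => key j, Finset.sum_sub_distrib]
    simp
  · refine Finset.sum_eq_zero fun j _ => ?_
    rw [if_neg]
    rintro ⟨s, -, h⟩
    exact hf ⟨s, h⟩

lemma mem_hull_range {ι E : Type*} [Fintype ι] [AddCommGroup E] [Module ℝ E] (v : ι → E) (x : E) :
    x ∈ convexHull ℝ (range v) ↔
      ∃ a : ι → ℝ, (∀ i, 0 ≤ a i) ∧ ∑ i, a i = 1 ∧ ∑ i, a i • v i = x := by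
  constructor
  · intro h
    have hfin : (range v).Finite := Set.finite_range v
    let S : Set E := {x | ∃ a : ι → ℝ, (∀ i, 0 ≤ a i) ∧ ∑ i, a i = 1 ∧ ∑ i, a i • v i = x}
    have hS : convexHull ℝ (range v) ⊆ S := by
      apply convexHull_min
      · rintro _ ⟨i, rfl⟩
        refine ⟨Pi.single i 1, fun j => ?_, ?_, ?_⟩
        · by_cases hj : j = i
          · subst hj; simp
          · simp [Pi.single_eq_of_ne hj]
        · simp
        · rw [Finset.sum_eq_single i]
          · simp
          · intro j _ hj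
            simp [Pi.single_eq_of_ne hj]
          · simp
      · rintro _ ⟨a, ha, ha1, rfl⟩ _ ⟨b, hb, hb1, rfl⟩ r s hr hs hrs
        refine ⟨fun i => r * a i + s * b i, fun i => ?_, ?_, ?_⟩
        · exact add_nonneg (mul_nonneg hr (ha i)) (mul_nonneg hs (hb i))
        · rw [Finset.sum_add_distrib, ← Finset.mul_sum, ← Finset.mul_sum, ha1, hb1]
          linarith
        · simp only [add_smul, mul_smul]
          rw [Finset.sum_add_distrib, ← Finset.smul_sum, ← Finset.smul_sum]
    exact hS h
  · rintro ⟨a, ha, ha1, rfl⟩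
    exact (convex_convexHull ℝ (range v)).sum_mem (fun i _ => ha i) ha1
      (fun i _ => subset_convexHull ℝ _ (mem_range_self i))

/-- The determinant of `k + 2` points of `ℝ^(k+1)` in homogeneous coordinates. -/
noncomputable def hdet {k : ℕ} (z : Fin (k + 2) → Fin (k + 1) → ℝ) : ℝ :=
  Matrix.det (Matrix.of fun i => (Fin.cons 1 (z i) : Fin (k + 2) → ℝ))

/-- The orientation sign of the simplex `z` if it contains `x`, and `0` otherwise. -/
noncomputable def G {k : ℕ} (x : Fin (k + 1) → ℝ) (z : Fin (k + 2) → Fin (k + 1) → ℝ) : ℤ :=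
  if x ∈ convexHull ℝ (range z) then (SignType.sign (hdet z) : ℤ) else 0

lemma laplace {k : ℕ} (z : Fin (k + 3) → Fin (k + 1) → ℝ) (l : Fin (k + 2)) :
    ∑ j : Fin (k + 3), (-1 : ℝ) ^ (j : ℕ) * hdet (z ∘ j.succAbove) *
      (Fin.cons 1 (z j) : Fin (k + 2) → ℝ) l = 0 := by
  let M : Matrix (Fin (k + 3)) (Fin (k + 3)) ℝ := Matrix.of fun j =>
    (Fin.cons ((Fin.cons 1 (z j) : Fin (k + 2) → ℝ) l) (Fin.cons 1 (z j) : Fin (k + 2) → ℝ) :
      Fin (k + 3) → ℝ)
  have h0 : M.det = 0 := by
    refine Matrix.det_zero_of_column_eq (i := 0) (j := l.succ) (Fin.succ_ne_zero l).symm ?_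
    intro j
    simp [M]
  rw [Matrix.det_succ_column_zero] at h0
  rw [← h0]
  refine Finset.sum_congr rfl fun j _ => ?_
  have h1 : M.submatrix j.succAbove Fin.succ =
      Matrix.of fun i => (Fin.cons 1 ((z ∘ j.succAbove) i) : Fin (k + 2) → ℝ) := by
    ext i i'
    simp [M]
  rw [h1]
  have h2 : M j 0 = (Fin.cons 1 (z j) : Fin (k + 2) → ℝ) l := by simp [M]
  rw [h2]
  unfold hdet
  ring

end Pool.Agent.Work.MP_1c91cf_gt.Cone
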