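import Pool.Agent.Work.MP_1c91cf_gt.Cone.C01

set_option autoImplicit false

open Matrix MeasureTheory Set

namespace Pool.Agent.Work.MP_1c91cf_gt.Cone

open Classical

lemma sign_neg_one_pow (j : ℕ) (x : ℝ) :
    (SignType.sign ((-1 : ℝ) ^ j * x) : ℤ) = (-1) ^ j * (SignType.sign x : ℤ) := by
  rcases Nat.even_or_odd j with h | h
  · rw [h.neg_one_pow, h.neg_one_pow, one_mul, one_mul]
  · rw [h.neg_one_pow, h.neg_one_pow, neg_one_mul, neg_one_mul, Left.sign_neg]
    simp

/-- The cocycle property of the oriented indicator of a simplex. -/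
lemma cocycle {k : ℕ} (z : Fin (k + 3) → Fin (k + 1) → ℝ) (x : Fin (k + 1) → ℝ)
    (gen : ∀ a : Fin (k + 3) → ℝ, (∀ i, 0 ≤ a i) → ∑ i, a i = 1 → ∑ i, a i • z i = x →
      ∀ j j', a j = 0 → a j' = 0 → j = j') :
    ∑ j : Fin (k + 3), (-1 : ℤ) ^ (j : ℕ) * G x (z ∘ j.succAbove) = 0 := by
  set d : Fin (k + 3) → ℝ := fun j => (-1 : ℝ) ^ (j : ℕ) * hdet (z ∘ j.succAbove) with hd
  set w : Fin (k + 3) → Fin (k + 2) → ℝ := fun j => Fin.cons 1 (z j) with hw
  set e : Fin (k + 2) → ℝ := Fin.cons 1 x with he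
  have hlap : ∀ l, ∑ j, d j * w j l = 0 := fun l => laplace z l
  by_cases h0 : ∀ j : Fin (k + 3), hdet (z ∘ j.succAbove) = 0
  · refine Finset.sum_eq_zero fun j _ => ?_
    unfold G
    rw [h0 j]
    simp
  push Not at h0
  obtain ⟨j0, hj0⟩ := h0
  have hdj0 : d j0 ≠ 0 := mul_ne_zero (pow_ne_zero _ (by norm_num)) hj0
  set A : Matrix (Fin (k + 2)) (Fin (k + 2)) ℝ := Matrix.of fun i => w (j0.succAbove i) with hA
  have hAdet : A.det ≠ 0 := hj0
  have hAunit : IsUnit A.det := isUnit_iff_ne_zero.2 hAdet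
  -- uniqueness of relations
  have huniq : ∀ b : Fin (k + 3) → ℝ, (∀ l, ∑ j, b j * w j l = 0) → ∃ s, ∀ j, b j = s * d j := by
    intro b hb
    refine ⟨b j0 / d j0, ?_⟩
    set c : Fin (k + 3) → ℝ := fun j => b j - b j0 / d j0 * d j with hc
    have hcj0 : c j0 = 0 := by simp only [hc]; field_simp; ring
    have hc0 : ∀ l, ∑ j, c j * w j l = 0 := by
      intro l
      have : ∑ j, c j * w j l = ∑ j, b j * w j l - b j0 / d j0 * ∑ j, d j * w j l := by
        rw [Finset.mul_sum, ← Finset.sum_sub_distrib]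
        exact Finset.sum_congr rfl fun j _ => by simp only [hc]; ring
      rw [this, hb, hlap]
      ring
    have hvec : (fun i => c (j0.succAbove i)) ᵥ* A = 0 := by
      funext l
      have := hc0 l
      rw [Fin.sum_univ_succAbove _ j0, hcj0, zero_mul, zero_add] at this
      exact this
    have hz : (fun i => c (j0.succAbove i)) = 0 := by
      have h1 := congrArg (fun v => v ᵥ* A⁻¹) hvec
      simpa [Matrix.vecMul_vecMul, Matrix.mul_nonsing_inv A hAunit] using h1
    intro j
    have hcj : c j = 0 := by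
      by_cases hj : j = j0
      · rw [hj, hcj0]
      · obtain ⟨i, rfl⟩ := Fin.exists_succAbove_eq hj
        exact congrFun hz i
    simp only [hc] at hcj
    linarith
  -- a particular solution
  set b0 : Fin (k + 2) → ℝ := e ᵥ* A⁻¹ with hb0
  have hb0A : b0 ᵥ* A = e := by
    rw [hb0, Matrix.vecMul_vecMul, Matrix.nonsing_inv_mul A hAunit, Matrix.vecMul_one]
  set a : Fin (k + 3) → ℝ := j0.insertNth 0 b0 with ha
  have ha0 : ∀ l, ∑ j, a j * w j l = e l := by
    intro l
    rw [Fin.sum_univ_succAbove _ j0]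
    simp only [ha, Fin.insertNth_apply_same, Fin.insertNth_apply_succAbove, zero_mul, zero_add]
    exact congrFun hb0A l
  have hsol : ∀ s l, ∑ j, (a j + s * d j) * w j l = e l := by
    intro s l
    have : ∑ j, (a j + s * d j) * w j l = ∑ j, a j * w j l + s * ∑ j, d j * w j l := by
      rw [Finset.mul_sum, ← Finset.sum_add_distrib]
      exact Finset.sum_congr rfl fun j _ => by ring
    rw [this, ha0, hlap]
    ring
  -- translation between coefficient vectors
  have htrans : ∀ b : Fin (k + 3) → ℝ, (∀ l, ∑ j, b j * w j l = e l) ↔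
      (∑ j, b j = 1 ∧ ∑ j, b j • z j = x) := by
    intro b
    constructor
    · intro h
      refine ⟨?_, ?_⟩
      · have := h 0
        simpa [hw, he] using this
      · funext l
        have := h l.succ
        simpa [hw, he, Finset.sum_apply] using this
    · rintro ⟨h1, h2⟩ l
      refine Fin.cases ?_ (fun l => ?_) l
      · simpa [hw, he] using h1
      · have := congrFun h2 l
        simpa [hw, he, Finset.sum_apply] using this
  have hhit : ∀ j, x ∈ convexHull ℝ (range (z ∘ j.succAbove)) ↔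
      ∃ s, a j + s * d j = 0 ∧ ∀ i, 0 ≤ a i + s * d i := by
    intro j
    rw [mem_hull_range]
    constructor
    · rintro ⟨b, hb, hb1, hbx⟩
      set b' : Fin (k + 3) → ℝ := j.insertNth 0 b with hb'
      have h1 : ∀ l, ∑ i, b' i * w i l = e l := by
        rw [htrans]
        refine ⟨?_, ?_⟩
        · rw [Fin.sum_univ_succAbove _ j]
          simpa [hb'] using hb1
        · rw [Fin.sum_univ_succAbove _ j]
          simpa [hb'] using hbx
      obtain ⟨s, hs⟩ := huniq (fun i => b' i - a i) (by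
        intro l
        have : ∑ i, (b' i - a i) * w i l = ∑ i, b' i * w i l - ∑ i, a i * w i l := by
          rw [← Finset.sum_sub_distrib]
          exact Finset.sum_congr rfl fun i _ => by ring
        rw [this, h1, ha0, sub_self])
      have hs' : ∀ i, a i + s * d i = b' i := fun i => by linarith [hs i]
      refine ⟨s, ?_, fun i => ?_⟩
      · rw [hs']
        simp [hb']
      · rw [hs']
        by_cases hi : i = j
        · subst hi
          simp [hb']
        · obtain ⟨i', rfl⟩ := Fin.exists_succAbove_eq hi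
          simpa [hb'] using hb i'
    · rintro ⟨s, hs, hs'⟩
      obtain ⟨h1, h2⟩ := (htrans (fun i => a i + s * d i)).1 (hsol s)
      refine ⟨fun i => a (j.succAbove i) + s * d (j.succAbove i), fun i => hs' _, ?_, ?_⟩
      · rw [Fin.sum_univ_succAbove _ j, hs, zero_add] at h1
        exact h1
      · rw [Fin.sum_univ_succAbove _ j, hs, zero_smul, zero_add] at h2
        exact h2
  have hsum0 : ∑ j, d j = 0 := by
    have := hlap 0
    simpa [hw] using this
  have hpos : ∃ i, 0 < d i := by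
    by_contra hcon
    push Not at hcon
    have := (Finset.sum_eq_zero_iff_of_nonpos (fun i _ => hcon i)).1 hsum0 j0 (Finset.mem_univ _)
    exact hdj0 this
  have hneg : ∃ i, d i < 0 := by
    by_contra hcon
    push Not at hcon
    have := (Finset.sum_eq_zero_iff_of_nonneg (fun i _ => hcon i)).1 hsum0 j0 (Finset.mem_univ _)
    exact hdj0 this
  have hfin := line_sum a d hpos hneg (by
    intro s hs j j' h1 h2
    obtain ⟨h3, h4⟩ := (htrans (fun i => a i + s * d i)).1 (hsol s)
    exact gen (fun i => a i + s * d i) hs h3 h4 j j' h1 h2)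
  rw [← hfin]
  refine Finset.sum_congr rfl fun j _ => ?_
  unfold G
  by_cases hh : x ∈ convexHull ℝ (range (z ∘ j.succAbove))
  · rw [if_pos hh, if_pos ((hhit j).1 hh), ← sign_neg_one_pow]
  · rw [if_neg hh, if_neg (fun h => hh ((hhit j).2 h)), mul_zero]

lemma cons_comp_perm {n : ℕ} {α : Type*} (y : α) (v : Fin n → α) (π : Equiv.Perm (Fin n)) :
    (Fin.cons y (v ∘ π) : Fin (n + 1) → α) =
      (Fin.cons y v : Fin (n + 1) → α) ∘ (Equiv.Perm.decomposeFin.symm (0, π)) := by
  funext i
  refine Fin.cases ?_ (fun i => ?_) i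
  · simp
  · simp

lemma sign_decomposeFin {n : ℕ} (π : Equiv.Perm (Fin n)) :
    Equiv.Perm.sign (Equiv.Perm.decomposeFin.symm (0, π)) = Equiv.Perm.sign π := by
  rw [Equiv.Perm.decomposeFin.symm_sign]
  simp

lemma hdet_perm {k : ℕ} (z : Fin (k + 2) → Fin (k + 1) → ℝ) (π : Equiv.Perm (Fin (k + 2))) :
    hdet (z ∘ π) = ((Equiv.Perm.sign π : ℤˣ) : ℤ) * hdet z := by
  unfold hdet
  rw [← Matrix.det_permute π]
  rfl

lemma sign_units_mul (u : ℤˣ) (x : ℝ) :
    (SignType.sign (((u : ℤ) : ℝ) * x) : ℤ) = (u : ℤ) * (SignType.sign x : ℤ) := by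
  rcases Int.units_eq_one_or u with rfl | rfl
  · simp
  · simp [Left.sign_neg]

lemma G_perm {k : ℕ} (x : Fin (k + 1) → ℝ) (z : Fin (k + 2) → Fin (k + 1) → ℝ)
    (π : Equiv.Perm (Fin (k + 2))) :
    G x (z ∘ π) = ((Equiv.Perm.sign π : ℤˣ) : ℤ) * G x z := by
  unfold G
  rw [hdet_perm, π.surjective.range_comp, sign_units_mul]
  by_cases h : x ∈ convexHull ℝ (range z)
  · rw [if_pos h, if_pos h]
  · rw [if_neg h, if_neg h, mul_zero]

end Pool.Agent.Work.MP_1c91cf_gt.Cone
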