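import Pool.Agent.Work.MP_1c91cf_gt.Cone.C02

set_option autoImplicit false

open Matrix MeasureTheory Set

namespace Pool.Agent.Work.MP_1c91cf_gt.Cone

open Classical

lemma cons_comp_succAbove {n : ℕ} {α : Type*} (y : α) (f : Fin (n + 1) → α) (j : Fin (n + 1)) :
    (Fin.cons y f : Fin (n + 2) → α) ∘ (Fin.succ j).succAbove = Fin.cons y (f ∘ j.succAbove) := by
  funext i
  refine Fin.cases ?_ (fun i => ?_) i
  · simp
  · simp

lemma cons_comp_zero {n : ℕ} {α : Type*} (y : α) (f : Fin n → α) :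
    (Fin.cons y f : Fin (n + 1) → α) ∘ (0 : Fin (n + 1)).succAbove = f := by
  funext i
  simp

variable {k m : ℕ}

/-- The cone count of the chain `c` at `x` with apex `y`. -/
noncomputable def W (c : (Fin (k + 1) → Fin m) → ℤ) (p : Fin m → Fin (k + 1) → ℝ)
    (x y : Fin (k + 1) → ℝ) : ℤ :=
  ∑ σ, c σ * G x (Fin.cons y (p ∘ σ) : Fin (k + 2) → Fin (k + 1) → ℝ)

/-- The apex `y` is in general position for `x`. -/
def ApexOk (c : (Fin (k + 1) → Fin m) → ℤ) (p : Fin m → Fin (k + 1) → ℝ)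
    (x y : Fin (k + 1) → ℝ) : Prop :=
  ∀ σ, c σ ≠ 0 → ∀ i : Fin (k + 1),
    x ∉ convexHull ℝ (range (Fin.cons y (p ∘ σ ∘ i.succAbove) : Fin (k + 1) → Fin (k + 1) → ℝ))

/-- The point `x` is not on the polyhedron. -/
def Off (c : (Fin (k + 1) → Fin m) → ℤ) (p : Fin m → Fin (k + 1) → ℝ)
    (x : Fin (k + 1) → ℝ) : Prop :=
  ∀ σ, c σ ≠ 0 → x ∉ convexHull ℝ (range (p ∘ σ))

/-- `c` is killed by all coboundaries of alternating cochains. -/
def Cyc (c : (Fin (k + 1) → Fin m) → ℤ) : Prop :=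
  ∀ f : (Fin k → Fin m) → ℤ,
    (∀ (τ : Fin k → Fin m) (π : Equiv.Perm (Fin k)),
      f (τ ∘ ⇑π) = ((Equiv.Perm.sign π : ℤˣ) : ℤ) * f τ) →
    ∑ σ : Fin (k + 1) → Fin m,
      c σ * ∑ i : Fin (k + 1), (-1 : ℤ) ^ (i : ℕ) * f (σ ∘ Fin.succAbove i) = 0

/-- No codimension two position for the pair of apices `y`, `y'`. -/
def Pair (c : (Fin (k + 1) → Fin m) → ℤ) (p : Fin m → Fin (k + 1) → ℝ)
    (x y y' : Fin (k + 1) → ℝ) : Prop :=
  ∀ σ, c σ ≠ 0 → ∀ i i' : Fin (k + 1), i ≠ i' → ∀ (α β : ℝ) (b : Fin (k + 1) → ℝ),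
    0 ≤ α → 0 ≤ β → (∀ j, 0 ≤ b j) → α + β + ∑ j, b j = 1 →
    α • y + β • y' + ∑ j, b j • p (σ j) = x → b i = 0 → b i' = 0 → False

lemma mem_hull_cons_face {y x : Fin (k + 1) → ℝ} {v : Fin (k + 1) → Fin (k + 1) → ℝ}
    {i : Fin (k + 1)} {α : ℝ} {b : Fin (k + 1) → ℝ} (hα : 0 ≤ α) (hb : ∀ j, 0 ≤ b j)
    (h1 : α + ∑ j, b j = 1) (h2 : α • y + ∑ j, b j • v j = x) (hi : b i = 0) :
    x ∈ convexHull ℝ (range (Fin.cons y (v ∘ i.succAbove) : Fin (k + 1) → Fin (k + 1) → ℝ)) := by
  rw [mem_hull_range]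
  refine ⟨Fin.cons α (b ∘ i.succAbove), fun j => ?_, ?_, ?_⟩
  · refine Fin.cases ?_ (fun j => ?_) j
    · simpa using hα
    · simpa using hb _
  · rw [Fin.sum_univ_succ]
    rw [Fin.sum_univ_succAbove _ i, hi, zero_add] at h1
    simpa using h1
  · rw [Fin.sum_univ_succ]
    rw [Fin.sum_univ_succAbove _ i, hi, zero_smul, zero_add] at h2
    simpa using h2

lemma W_eq_of_pair {c : (Fin (k + 1) → Fin m) → ℤ} (hc : Cyc c) {p : Fin m → Fin (k + 1) → ℝ}
    {x y y' : Fin (k + 1) → ℝ} (hx : Off c p x) (hy : ApexOk c p x y) (hy' : ApexOk c p x y')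
    (hyy' : Pair c p x y y') : W c p x y = W c p x y' := by
  let f : (Fin k → Fin m) → ℤ := fun τ =>
    G x (Fin.cons y (Fin.cons y' (p ∘ τ) : Fin (k + 1) → Fin (k + 1) → ℝ) :
      Fin (k + 2) → Fin (k + 1) → ℝ)
  have hf : ∀ (τ : Fin k → Fin m) (π : Equiv.Perm (Fin k)),
      f (τ ∘ ⇑π) = ((Equiv.Perm.sign π : ℤˣ) : ℤ) * f τ := by
    intro τ π
    have h1 : (Fin.cons y (Fin.cons y' (p ∘ (τ ∘ π)) : Fin (k + 1) → Fin (k + 1) → ℝ) :
        Fin (k + 2) → Fin (k + 1) → ℝ) =
        (Fin.cons y (Fin.cons y' (p ∘ τ) : Fin (k + 1) → Fin (k + 1) → ℝ) :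
          Fin (k + 2) → Fin (k + 1) → ℝ) ∘
          (Equiv.Perm.decomposeFin.symm (0, Equiv.Perm.decomposeFin.symm (0, π))) := by
      rw [← cons_comp_perm, ← cons_comp_perm]
      rfl
    show G x (Fin.cons y (Fin.cons y' (p ∘ (τ ∘ π)) : Fin (k + 1) → Fin (k + 1) → ℝ) :
        Fin (k + 2) → Fin (k + 1) → ℝ) = _
    rw [h1, G_perm, sign_decomposeFin, sign_decomposeFin]
  have hterm : ∀ σ : Fin (k + 1) → Fin m, c σ ≠ 0 →
      G x (Fin.cons y' (p ∘ σ) : Fin (k + 2) → Fin (k + 1) → ℝ) -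
        G x (Fin.cons y (p ∘ σ) : Fin (k + 2) → Fin (k + 1) → ℝ) +
        ∑ i : Fin (k + 1), (-1 : ℤ) ^ (i : ℕ) * f (σ ∘ i.succAbove) = 0 := by
    intro σ hσ
    have h := cocycle (Fin.cons y (Fin.cons y' (p ∘ σ) : Fin (k + 2) → Fin (k + 1) → ℝ) :
      Fin (k + 3) → Fin (k + 1) → ℝ) x (by
        intro a ha ha1 hax
        rw [Fin.sum_univ_succ, Fin.sum_univ_succ] at ha1 hax
        simp only [Fin.cons_zero, Fin.cons_succ] at hax
        have e0 := ha 0
        have e1 := ha (Fin.succ 0)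
        have e2 : ∀ j : Fin (k + 1), 0 ≤ a j.succ.succ := fun j => ha _
        have ha1' : a 0 + a (Fin.succ 0) + ∑ i : Fin (k + 1), a i.succ.succ = 1 := by
          rw [← ha1]; ring
        have hax' : a 0 • y + a (Fin.succ 0) • y' + ∑ i : Fin (k + 1), a i.succ.succ • p (σ i)
            = x := by
          rw [← hax, add_assoc]
          rfl
        -- the four types of coincidences
        have c01 : a 0 = 0 → a (Fin.succ 0) = 0 → False := by
          intro h0 h1
          apply hx σ hσ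
          rw [mem_hull_range]
          refine ⟨fun i => a i.succ.succ, e2, ?_, ?_⟩
          · rw [h0, h1] at ha1'
            simpa using ha1'
          · rw [h0, h1] at hax'
            simpa using hax'
        have c0i : ∀ i : Fin (k + 1), a 0 = 0 → a i.succ.succ = 0 → False := by
          intro i h0 h1
          refine hy' σ hσ i (mem_hull_cons_face (v := p ∘ σ) (b := fun j => a j.succ.succ) e1 e2
            ?_ ?_ h1)
          · rw [h0] at ha1'
            simpa using ha1'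
          · rw [h0] at hax'
            simpa using hax'
        have c1i : ∀ i : Fin (k + 1), a (Fin.succ 0) = 0 → a i.succ.succ = 0 → False := by
          intro i h0 h1
          refine hy σ hσ i (mem_hull_cons_face (v := p ∘ σ) (b := fun j => a j.succ.succ) e0 e2
            ?_ ?_ h1)
          · rw [h0] at ha1'
            simpa using ha1'
          · rw [h0] at hax'
            simpa using hax'
        have cii : ∀ i i' : Fin (k + 1), i ≠ i' → a i.succ.succ = 0 → a i'.succ.succ = 0 →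
            False := by
          intro i i' hne h0 h1
          exact hyy' σ hσ i i' hne (a 0) (a (Fin.succ 0)) (fun j => a j.succ.succ) e0 e1 e2 ha1'
            hax' h0 h1
        intro j j'
        refine Fin.cases ?_ (fun j => ?_) j
        · refine Fin.cases ?_ (fun j' => ?_) j'
          · intro _ _; rfl
          · refine Fin.cases ?_ (fun j' => ?_) j'
            · intro h0 h1; exact (c01 h0 h1).elim
            · intro h0 h1; exact (c0i j' h0 h1).elim
        · refine Fin.cases ?_ (fun j => ?_) j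
          · refine Fin.cases ?_ (fun j' => ?_) j'
            · intro h0 h1; exact (c01 h1 h0).elim
            · refine Fin.cases ?_ (fun j' => ?_) j'
              · intro _ _; rfl
              · intro h0 h1; exact (c1i j' h0 h1).elim
          · refine Fin.cases ?_ (fun j' => ?_) j'
            · intro h0 h1; exact (c0i j h1 h0).elim
            · refine Fin.cases ?_ (fun j' => ?_) j'
              · intro h0 h1; exact (c1i j h1 h0).elim
              · intro h0 h1
                by_contra hne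
                refine cii j j' ?_ h0 h1
                rintro rfl
                exact hne rfl)
    rw [Fin.sum_univ_succ, Fin.sum_univ_succ] at h
    rw [cons_comp_zero, cons_comp_succAbove, cons_comp_zero] at h
    have h2 : ∀ i : Fin (k + 1), (Fin.cons y (Fin.cons y' (p ∘ σ) : Fin (k + 2) → Fin (k + 1) → ℝ) :
        Fin (k + 3) → Fin (k + 1) → ℝ) ∘ (i.succ.succ).succAbove =
        (Fin.cons y (Fin.cons y' (p ∘ (σ ∘ i.succAbove)) : Fin (k + 1) → Fin (k + 1) → ℝ) :
          Fin (k + 2) → Fin (k + 1) → ℝ) := by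
      intro i
      rw [cons_comp_succAbove, cons_comp_succAbove]
      rfl
    simp only [h2] at h
    have h3 : ∑ i : Fin (k + 1), (-1 : ℤ) ^ (i : ℕ) * f (σ ∘ i.succAbove) =
        ∑ i : Fin (k + 1), (-1 : ℤ) ^ ((i.succ.succ : Fin (k + 3)) : ℕ) *
          G x (Fin.cons y (Fin.cons y' (p ∘ (σ ∘ i.succAbove)) : Fin (k + 1) → Fin (k + 1) → ℝ) :
            Fin (k + 2) → Fin (k + 1) → ℝ) := by
      refine Finset.sum_congr rfl fun i _ => ?_
      rw [Fin.val_succ, Fin.val_succ, pow_succ, pow_succ]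
      show _ * G x _ = _
      ring
    rw [h3, ← h]
    simp
    ring
  have hsum := hc f hf
  unfold W
  have h4 : ∑ σ : Fin (k + 1) → Fin m, c σ * G x (Fin.cons y' (p ∘ σ) : Fin (k + 2) → _) -
      ∑ σ : Fin (k + 1) → Fin m, c σ * G x (Fin.cons y (p ∘ σ) : Fin (k + 2) → _) +
      ∑ σ : Fin (k + 1) → Fin m,
        c σ * ∑ i : Fin (k + 1), (-1 : ℤ) ^ (i : ℕ) * f (σ ∘ Fin.succAbove i) = 0 := by
    rw [← Finset.sum_sub_distrib, ← Finset.sum_add_distrib]
    refine Finset.sum_eq_zero fun σ _ => ?_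
    by_cases hσ : c σ = 0
    · simp [hσ]
    · have := hterm σ hσ
      rw [← mul_sub, ← mul_add, this, mul_zero]
  rw [hsum] at h4
  linarith

end Pool.Agent.Work.MP_1c91cf_gt.Cone
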