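import Pool.Agent.Work.MP_1c91cf_gt.Cone.C03

set_option autoImplicit false

open Matrix MeasureTheory Set

namespace Pool.Agent.Work.MP_1c91cf_gt.Cone

open Classical

lemma null_span {k : ℕ} (v : Fin k → Fin (k + 1) → ℝ) :
    ∀ᵐ u : Fin (k + 1) → ℝ, u ∉ Submodule.span ℝ (range v) := by
  have h1 : Submodule.span ℝ (range v) ≠ ⊤ := by
    intro h
    have h2 : (range v).finrank ℝ ≤ Fintype.card (Fin k) := finrank_range_le_card v
    have h3 : (range v).finrank ℝ = k + 1 := by
      unfold Set.finrank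
      rw [h, finrank_top]
      simp
    rw [h3, Fintype.card_fin] at h2
    omega
  have h2 := Measure.addHaar_submodule (volume : Measure (Fin (k + 1) → ℝ)) _ h1
  exact measure_eq_zero_iff_ae_notMem.1 h2

lemma null_affine {k : ℕ} (v : Fin (k + 1) → Fin (k + 1) → ℝ) :
    volume (convexHull ℝ (range v)) = 0 := by
  have h1 : affineSpan ℝ (range v) ≠ ⊤ := by
    intro h
    have h2 := finrank_vectorSpan_range_le ℝ v (n := k) (by simp)
    rw [← direction_affineSpan, h, AffineSubspace.direction_top, finrank_top] at h2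
    simp at h2
  have h2 := Measure.addHaar_affineSubspace (volume : Measure (Fin (k + 1) → ℝ)) _ h1
  exact measure_mono_null (convexHull_subset_affineSpan (range v)) h2

lemma null_face (k : ℕ) (v : Fin k → Fin (k + 1) → ℝ) :
    volume (convexHull ℝ (range (Fin.cons 0 v : Fin (k + 1) → Fin (k + 1) → ℝ))) = 0 :=
  null_affine _

variable {k m : ℕ}

lemma good_of_notMem {c : (Fin (k + 1) → Fin m) → ℤ} {p : Fin m → Fin (k + 1) → ℝ}
    {x u : Fin (k + 1) → ℝ} (hx : Off c p x)
    (hu : ∀ (σ : Fin (k + 1) → Fin m) (i : Fin (k + 1)),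
      u ∉ Submodule.span ℝ (range fun j : Fin k => p (σ (i.succAbove j)) - x)) :
    ApexOk c p x (x - u) := by
  intro σ hσ i hmem
  rw [mem_hull_range] at hmem
  obtain ⟨a, ha, ha1, hax⟩ := hmem
  rw [Fin.sum_univ_succ] at ha1 hax
  simp only [Fin.cons_zero, Fin.cons_succ, Function.comp_apply] at hax
  have h1 : a 0 • u = ∑ j : Fin k, a j.succ • (p (σ (i.succAbove j)) - x) := by
    simp only [smul_sub]
    rw [Finset.sum_sub_distrib, ← Finset.sum_smul]
    have h2 : ∑ j : Fin k, a j.succ = 1 - a 0 := by linarith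
    rw [h2]
    have h3 : ∑ j : Fin k, a j.succ • p (σ (i.succAbove j)) = x - a 0 • (x - u) :=
      eq_sub_of_add_eq' hax
    rw [h3]
    module
  by_cases h0 : a 0 = 0
  · apply hx σ hσ
    rw [mem_hull_range]
    refine ⟨i.insertNth 0 fun j => a j.succ, fun j => ?_, ?_, ?_⟩
    · by_cases hj : j = i
      · subst hj; simp
      · obtain ⟨j', rfl⟩ := Fin.exists_succAbove_eq hj
        simpa using ha _
    · rw [Fin.sum_univ_succAbove _ i]
      rw [h0, zero_add] at ha1
      simpa using ha1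
    · rw [Fin.sum_univ_succAbove _ i]
      rw [h0, zero_smul, zero_add] at hax
      simpa using hax
  · apply hu σ i
    have h4 : u = (a 0)⁻¹ • ∑ j : Fin k, a j.succ • (p (σ (i.succAbove j)) - x) := by
      rw [← h1, smul_smul, inv_mul_cancel₀ h0, one_smul]
    rw [h4]
    exact Submodule.smul_mem _ _ (Submodule.sum_mem _ fun j _ =>
      Submodule.smul_mem _ _ (Submodule.subset_span (mem_range_self j)))

lemma pair_of_notMem {c : (Fin (k + 1) → Fin m) → ℤ} {p : Fin m → Fin (k + 1) → ℝ}
    {x y u : Fin (k + 1) → ℝ} (hy : ApexOk c p x y)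
    (hu : ∀ (σ : Fin (k + 1) → Fin m) (i : Fin (k + 1)) (j' : Fin k),
      u ∉ Submodule.span ℝ (range (Function.update
        (fun j : Fin k => p (σ (i.succAbove j)) - x) j' (y - x)))) :
    Pair c p x y (x - u) := by
  intro σ hσ i i' hne α β b hα hβ hb hsum hx hbi hbi'
  obtain ⟨j', rfl⟩ := Fin.exists_succAbove_eq (Ne.symm hne)
  have h1 : β • u = α • (y - x) + ∑ j : Fin (k + 1), b j • (p (σ j) - x) := by
    simp only [smul_sub]
    rw [Finset.sum_sub_distrib, ← Finset.sum_smul]
    have h2 : ∑ j : Fin (k + 1), b j = 1 - α - β := by linarith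
    rw [h2]
    have h3 : ∑ j : Fin (k + 1), b j • p (σ j) = x - α • y - β • (x - u) := by
      rw [sub_sub]
      exact eq_sub_of_add_eq' hx
    rw [h3]
    module
  by_cases h0 : β = 0
  · refine hy σ hσ i (mem_hull_cons_face (v := p ∘ σ) hα hb ?_ ?_ hbi)
    · rw [h0] at hsum
      simpa using hsum
    · rw [h0] at hx
      simpa using hx
  · apply hu σ i j'
    have h4 : u = β⁻¹ • (α • (y - x) + ∑ j : Fin (k + 1), b j • (p (σ j) - x)) := by
      rw [← h1, smul_smul, inv_mul_cancel₀ h0, one_smul]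
    rw [h4, Fin.sum_univ_succAbove _ i, hbi, zero_smul, zero_add]
    refine Submodule.smul_mem _ _ (Submodule.add_mem _ (Submodule.smul_mem _ _ ?_)
      (Submodule.sum_mem _ fun j _ => ?_))
    · refine Submodule.subset_span ⟨j', ?_⟩
      simp
    · by_cases hj : j = j'
      · subst hj
        rw [hbi', zero_smul]
        exact Submodule.zero_mem _
      · refine Submodule.smul_mem _ _ (Submodule.subset_span ⟨j, ?_⟩)
        simp [Function.update_of_ne hj]

lemma ae_good {c : (Fin (k + 1) → Fin m) → ℤ} {p : Fin m → Fin (k + 1) → ℝ}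
    {x : Fin (k + 1) → ℝ} (hx : Off c p x) :
    ∀ᵐ u : Fin (k + 1) → ℝ, ApexOk c p x (x - u) := by
  have h1 : ∀ᵐ u : Fin (k + 1) → ℝ, ∀ (σ : Fin (k + 1) → Fin m) (i : Fin (k + 1)),
      u ∉ Submodule.span ℝ (range fun j : Fin k => p (σ (i.succAbove j)) - x) := by
    rw [ae_all_iff]
    intro σ
    rw [ae_all_iff]
    intro i
    exact null_span _
  filter_upwards [h1] with u hu
  exact good_of_notMem hx hu

lemma ae_pair {c : (Fin (k + 1) → Fin m) → ℤ} {p : Fin m → Fin (k + 1) → ℝ}
    {x y : Fin (k + 1) → ℝ} (hy : ApexOk c p x y) :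
    ∀ᵐ u : Fin (k + 1) → ℝ, Pair c p x y (x - u) := by
  have h1 : ∀ᵐ u : Fin (k + 1) → ℝ, ∀ (σ : Fin (k + 1) → Fin m) (i : Fin (k + 1)) (j' : Fin k),
      u ∉ Submodule.span ℝ (range (Function.update
        (fun j : Fin k => p (σ (i.succAbove j)) - x) j' (y - x))) := by
    rw [ae_all_iff]
    intro σ
    rw [ae_all_iff]
    intro i
    rw [ae_all_iff]
    intro j
    exact null_span _
  filter_upwards [h1] with u hu
  exact pair_of_notMem hy hu

/-- The cone count does not depend on the apex. -/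
lemma W_eq {c : (Fin (k + 1) → Fin m) → ℤ} (hc : Cyc c) {p : Fin m → Fin (k + 1) → ℝ}
    {x y y' : Fin (k + 1) → ℝ} (hx : Off c p x) (hy : ApexOk c p x y) (hy' : ApexOk c p x y') :
    W c p x y = W c p x y' := by
  obtain ⟨u, h1, h2, h3⟩ := ((ae_good hx).and ((ae_pair hy).and (ae_pair hy'))).exists
  rw [W_eq_of_pair hc hx hy h1 h2, W_eq_of_pair hc hx hy' h1 h3]

lemma exists_good {c : (Fin (k + 1) → Fin m) → ℤ} {p : Fin m → Fin (k + 1) → ℝ}
    {x : Fin (k + 1) → ℝ} (hx : Off c p x) :
    ∃ u : Fin (k + 1) → ℝ, u ≠ 0 ∧ ApexOk c p x (x - u) := by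
  have h1 : ∀ᵐ u : Fin (k + 1) → ℝ, u ≠ 0 := by
    have : (volume : Measure (Fin (k + 1) → ℝ)) {0} = 0 := measure_singleton _
    exact measure_eq_zero_iff_ae_notMem.1 this
  exact (h1.and (ae_good hx)).exists

lemma off_ae (c : (Fin (k + 1) → Fin m) → ℤ) (p : Fin m → Fin (k + 1) → ℝ) :
    ∀ᵐ x : Fin (k + 1) → ℝ, Off c p x := by
  unfold Off
  rw [ae_all_iff]
  intro σ
  have := measure_eq_zero_iff_ae_notMem.1 (null_affine (p ∘ σ))
  filter_upwards [this] with x hx _
  exact hx

lemma good_zero_ae (c : (Fin (k + 1) → Fin m) → ℤ) (p : Fin m → Fin (k + 1) → ℝ) :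
    ∀ᵐ x : Fin (k + 1) → ℝ, ApexOk c p x 0 := by
  unfold ApexOk
  rw [ae_all_iff]
  intro σ
  have : ∀ᵐ x : Fin (k + 1) → ℝ, ∀ i : Fin (k + 1),
      x ∉ convexHull ℝ (range (Fin.cons 0 (p ∘ σ ∘ i.succAbove) :
        Fin (k + 1) → Fin (k + 1) → ℝ)) := by
    rw [ae_all_iff]
    intro i
    exact measure_eq_zero_iff_ae_notMem.1 (null_face k _)
  filter_upwards [this] with x hx _
  exact hx

/-! ### Rays -/

lemma ray_iff {n : ℕ} {E : Type*} [AddCommGroup E] [Module ℝ E] (v : Fin n → E) (x u : E)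
    (hu : u ≠ 0) :
    (∃ r : ℝ, 0 ≤ r ∧ x + r • u ∈ convexHull ℝ (range v)) ↔
      x ∈ convexHull ℝ (range (Fin.cons (x - u) v : Fin (n + 1) → E)) := by
  rw [mem_hull_range]
  constructor
  · rintro ⟨r, hr, hmem⟩
    rw [mem_hull_range] at hmem
    obtain ⟨a, ha, ha1, hax⟩ := hmem
    have hr1 : 0 < 1 + r := by linarith
    refine ⟨Fin.cons (r / (1 + r)) fun i => a i / (1 + r), fun i => ?_, ?_, ?_⟩
    · refine Fin.cases ?_ (fun i => ?_) i
      · simp only [Fin.cons_zero]; positivity
      · simp only [Fin.cons_succ]; exact div_nonneg (ha i) hr1.le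
    · rw [Fin.sum_univ_succ]
      simp only [Fin.cons_zero, Fin.cons_succ]
      rw [← Finset.sum_div, ha1]
      field_simp
      ring
    · rw [Fin.sum_univ_succ]
      simp only [Fin.cons_zero, Fin.cons_succ]
      have h1 : ∑ i, (a i / (1 + r)) • v i = (1 / (1 + r)) • (x + r • u) := by
        rw [← hax, Finset.smul_sum]
        refine Finset.sum_congr rfl fun i _ => ?_
        rw [smul_smul]
        congr 1
        ring
      rw [h1, smul_sub, smul_add, smul_smul]
      have h2 : (1 / (1 + r)) * r = r / (1 + r) := by ring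
      rw [h2]
      have h3 : (r / (1 + r)) • x - (r / (1 + r)) • u + ((1 / (1 + r)) • x + (r / (1 + r)) • u) =
          (r / (1 + r) + 1 / (1 + r)) • x := by
        rw [add_smul]; abel
      rw [h3]
      have h4 : r / (1 + r) + 1 / (1 + r) = 1 := by field_simp; ring
      rw [h4, one_smul]
  · rintro ⟨a, ha, ha1, hax⟩
    rw [Fin.sum_univ_succ] at ha1 hax
    simp only [Fin.cons_zero, Fin.cons_succ] at hax
    set β := ∑ i : Fin n, a i.succ with hβ
    have hβ0 : 0 ≤ β := Finset.sum_nonneg fun i _ => ha _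
    rcases hβ0.eq_or_lt with h0 | h0
    · exfalso
      have hz : ∀ i : Fin n, a i.succ = 0 := by
        intro i
        have := (Finset.sum_eq_zero_iff_of_nonneg (fun i _ => ha (Fin.succ i))).1 h0.symm i
          (Finset.mem_univ _)
        exact this
      have ha0 : a 0 = 1 := by linarith
      rw [ha0] at hax
      simp only [hz, zero_smul, Finset.sum_const_zero, add_zero, one_smul] at hax
      exact hu (by simpa using hax)
    · refine ⟨a 0 / β, div_nonneg (ha 0) hβ0, ?_⟩
      rw [mem_hull_range]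
      refine ⟨fun i => a i.succ / β, fun i => div_nonneg (ha _) hβ0, ?_, ?_⟩
      · rw [← Finset.sum_div, ← hβ, div_self h0.ne']
      · have h1 : ∑ i : Fin n, (a i.succ / β) • v i = (1 / β) • ∑ i : Fin n, a i.succ • v i := by
          rw [Finset.smul_sum]
          refine Finset.sum_congr rfl fun i _ => ?_
          rw [smul_smul]
          congr 1
          ring
        have h2 : ∑ i : Fin n, a i.succ • v i = β • x + a 0 • u := by
          have : ∑ i : Fin n, a i.succ • v i = x - a 0 • (x - u) :=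
            eq_sub_of_add_eq' hax
          rw [this]
          have h3 : β = 1 - a 0 := by linarith
          rw [h3]
          module
        rw [h1, h2, smul_add, smul_smul, smul_smul, one_div, inv_mul_cancel₀ h0.ne', one_smul]
        congr 2
        ring

end Pool.Agent.Work.MP_1c91cf_gt.Cone
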