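import Pool.Agent.Work.MP_1c91cf_gt.Cone.C04

set_option autoImplicit false

open Matrix MeasureTheory Set

namespace Pool.Agent.Work.MP_1c91cf_gt.Cone

open Classical

variable {k m : ℕ}

lemma hdet_cons (y : Fin (k + 1) → ℝ) (v : Fin (k + 1) → Fin (k + 1) → ℝ) :
    hdet (Fin.cons y v : Fin (k + 2) → Fin (k + 1) → ℝ) =
      Matrix.det (Matrix.of (Fin.cons (Fin.cons 1 y : Fin (k + 2) → ℝ)
        (fun i => (Fin.cons 1 (v i) : Fin (k + 2) → ℝ)) : Fin (k + 2) → Fin (k + 2) → ℝ)) := by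
  unfold hdet
  congr 1
  ext i j
  refine Fin.cases ?_ (fun i => ?_) i
  · simp
  · simp

lemma det_cons_linear (w : Fin (k + 2) → ℝ) (R : Fin (k + 1) → Fin (k + 2) → ℝ) :
    Matrix.det (Matrix.of (Fin.cons w R : Fin (k + 2) → Fin (k + 2) → ℝ)) =
      ∑ j : Fin (k + 2), w j * ((-1) ^ (j : ℕ) *
        Matrix.det ((Matrix.of R).submatrix id j.succAbove)) := by
  rw [Matrix.det_succ_row_zero]
  refine Finset.sum_congr rfl fun j _ => ?_
  have h1 : (Matrix.of (Fin.cons w R : Fin (k + 2) → Fin (k + 2) → ℝ)).submatrix Fin.succ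
      j.succAbove = (Matrix.of R).submatrix id j.succAbove := by
    ext i i'
    simp
  rw [h1]
  simp
  ring

lemma hdet_cons_zero (v : Fin (k + 1) → Fin (k + 1) → ℝ) :
    hdet (Fin.cons 0 v : Fin (k + 2) → Fin (k + 1) → ℝ) = Matrix.det (Matrix.of v) := by
  rw [hdet_cons, det_cons_linear, Fin.sum_univ_succ]
  simp only [Fin.cons_zero, Fin.cons_succ, Pi.zero_apply, zero_mul, Finset.sum_const_zero,
    add_zero, one_mul, Fin.val_zero, pow_zero]
  congr 1

lemma det_cons_mem (R : Fin (k + 1) → Fin (k + 2) → ℝ) (i : Fin (k + 1)) :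
    Matrix.det (Matrix.of (Fin.cons (R i) R : Fin (k + 2) → Fin (k + 2) → ℝ)) = 0 := by
  refine Matrix.det_zero_of_row_eq (i := 0) (j := i.succ) (Fin.succ_ne_zero i).symm ?_
  funext j
  simp

lemma det_dir (u : Fin (k + 1) → ℝ) (v : Fin (k + 1) → Fin (k + 1) → ℝ) :
    Matrix.det (Matrix.of (Fin.cons (Fin.cons 0 u : Fin (k + 2) → ℝ)
        (fun i => (Fin.cons 1 (v i) : Fin (k + 2) → ℝ)) : Fin (k + 2) → Fin (k + 2) → ℝ)) =
      - Matrix.det (Matrix.of (Fin.cons u (fun i : Fin k => v i.succ - v 0) :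
          Fin (k + 1) → Fin (k + 1) → ℝ)) := by
  set A : Matrix (Fin (k + 2)) (Fin (k + 2)) ℝ := Matrix.of
    (Fin.cons (Fin.cons 0 u : Fin (k + 2) → ℝ) (Fin.cons (Fin.cons 1 (v 0) : Fin (k + 2) → ℝ)
      (fun i : Fin k => (Fin.cons 0 (v i.succ - v 0) : Fin (k + 2) → ℝ)) :
        Fin (k + 1) → Fin (k + 2) → ℝ) : Fin (k + 2) → Fin (k + 2) → ℝ) with hA
  have h1 : A.det = Matrix.det (Matrix.of (Fin.cons (Fin.cons 0 u : Fin (k + 2) → ℝ)
        (fun i => (Fin.cons 1 (v i) : Fin (k + 2) → ℝ)) : Fin (k + 2) → Fin (k + 2) → ℝ)) := by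
    refine Matrix.det_eq_of_forall_row_eq_smul_add_const
      (Fin.cons 0 (Fin.cons 0 (fun _ : Fin k => (-1 : ℝ)) : Fin (k + 1) → ℝ) : Fin (k + 2) → ℝ)
      (Fin.succ 0) (by simp) ?_
    intro i j
    refine Fin.cases ?_ (fun i => ?_) i
    · simp [hA]
    · refine Fin.cases ?_ (fun i => ?_) i
      · simp [hA]
      · refine Fin.cases ?_ (fun j => ?_) j
        · simp [hA]
        · simp [hA]
          ring
  rw [← h1, Matrix.det_succ_column_zero, Fin.sum_univ_succ, Fin.sum_univ_succ]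
  have e0 : A 0 0 = 0 := by simp [hA]
  have e1 : A (Fin.succ 0) 0 = 1 := by simp [hA]
  have e2 : ∀ i : Fin k, A i.succ.succ 0 = 0 := by intro i; simp [hA]
  simp only [e0, e1, e2, mul_zero, zero_mul, Finset.sum_const_zero, add_zero, zero_add, mul_one]
  have h2 : A.submatrix (Fin.succ (0 : Fin (k + 1))).succAbove Fin.succ =
      Matrix.of (Fin.cons u (fun i : Fin k => v i.succ - v 0) :
          Fin (k + 1) → Fin (k + 1) → ℝ) := by
    ext i j
    refine Fin.cases ?_ (fun i => ?_) i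
    · simp [hA]
    · simp [hA]
  rw [h2]
  simp

/-- The orientation sign at a crossing. -/
lemma hdet_ray {x u : Fin (k + 1) → ℝ} {v : Fin (k + 1) → Fin (k + 1) → ℝ} {r : ℝ}
    {a : Fin (k + 1) → ℝ} (ha : ∑ i, a i = 1) (hx : ∑ i, a i • v i = x + r • u) :
    hdet (Fin.cons (x - u) v : Fin (k + 2) → Fin (k + 1) → ℝ) =
      (1 + r) * Matrix.det (Matrix.of (Fin.cons u (fun i : Fin k => v i.succ - v 0) :
          Fin (k + 1) → Fin (k + 1) → ℝ)) := by
  set R : Fin (k + 1) → Fin (k + 2) → ℝ := fun i => (Fin.cons 1 (v i) : Fin (k + 2) → ℝ) with hR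
  have h0 := det_dir u v
  rw [hdet_cons]
  have h1 : ∀ j : Fin (k + 2), (Fin.cons 1 (x - u) : Fin (k + 2) → ℝ) j =
      ∑ i, a i * R i j - (1 + r) * (Fin.cons 0 u : Fin (k + 2) → ℝ) j := by
    intro j
    refine Fin.cases ?_ (fun j => ?_) j
    · simp [hR, ha]
    · have := congrFun hx j
      simp only [Finset.sum_apply, Pi.smul_apply, smul_eq_mul, Pi.add_apply] at this
      simp only [hR, Fin.cons_succ, this, Pi.sub_apply]
      ring
  have h2 : ∀ i, ∑ j : Fin (k + 2), R i j * ((-1) ^ (j : ℕ) *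
        Matrix.det ((Matrix.of R).submatrix id j.succAbove)) = 0 := by
    intro i
    rw [← det_cons_linear, det_cons_mem]
  rw [det_cons_linear] at h0 ⊢
  rw [← hR] at h0 ⊢
  have h3 : ∑ j : Fin (k + 2), (Fin.cons 1 (x - u) : Fin (k + 2) → ℝ) j * ((-1) ^ (j : ℕ) *
        Matrix.det ((Matrix.of R).submatrix id j.succAbove)) =
      ∑ i, a i * ∑ j : Fin (k + 2), R i j * ((-1) ^ (j : ℕ) *
        Matrix.det ((Matrix.of R).submatrix id j.succAbove)) -
      (1 + r) * ∑ j : Fin (k + 2), (Fin.cons 0 u : Fin (k + 2) → ℝ) j * ((-1) ^ (j : ℕ) *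
        Matrix.det ((Matrix.of R).submatrix id j.succAbove)) := by
    simp only [Finset.mul_sum]
    rw [Finset.sum_comm, ← Finset.sum_sub_distrib]
    refine Finset.sum_congr rfl fun j _ => ?_
    rw [h1 j, sub_mul, Finset.sum_mul]
    congr 1
    · exact Finset.sum_congr rfl fun i _ => by ring
    · ring
  rw [h3, h0]
  simp only [h2, mul_zero, Finset.sum_const_zero]
  ring

/-- The cone with apex `x - u` counts the crossings of the ray from `x` in the direction `u`. -/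
lemma G_ray {x u : Fin (k + 1) → ℝ} (hu : u ≠ 0) (v : Fin (k + 1) → Fin (k + 1) → ℝ) :
    G x (Fin.cons (x - u) v : Fin (k + 2) → Fin (k + 1) → ℝ) =
      if ∃ r : ℝ, 0 ≤ r ∧ x + r • u ∈ convexHull ℝ (range v) then
        (SignType.sign (Matrix.det (Matrix.of (Fin.cons u (fun i : Fin k => v i.succ - v 0) :
          Fin (k + 1) → Fin (k + 1) → ℝ))) : ℤ) else 0 := by
  unfold G
  by_cases h : ∃ r : ℝ, 0 ≤ r ∧ x + r • u ∈ convexHull ℝ (range v)
  · rw [if_pos h, if_pos ((ray_iff v x u hu).1 h)]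
    obtain ⟨r, hr, hmem⟩ := h
    rw [mem_hull_range] at hmem
    obtain ⟨a, ha, ha1, hax⟩ := hmem
    rw [hdet_ray ha1 hax]
    have hr1 : 0 < 1 + r := by linarith
    rw [sign_mul, sign_pos hr1, one_mul]
  · rw [if_neg h, if_neg (fun h' => h ((ray_iff v x u hu).2 h'))]

lemma G_zero (x : Fin (k + 1) → ℝ) (v : Fin (k + 1) → Fin (k + 1) → ℝ) :
    G x (Fin.cons 0 v : Fin (k + 2) → Fin (k + 1) → ℝ) =
      if x ∈ convexHull ℝ (insert 0 (range v)) then
        (SignType.sign (Matrix.det (Matrix.of v)) : ℤ) else 0 := by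
  unfold G
  rw [hdet_cons_zero, Fin.range_cons]

end Pool.Agent.Work.MP_1c91cf_gt.Cone
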