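import Pool.Agent.Work.MP_1c91cf_gt.Cone.C05
import Pool.Agent.Work.MP_1c91cf_gt.Final

set_option autoImplicit false

open Matrix MeasureTheory Set

namespace Pool.Agent.Work.MP_1c91cf_gt.Cone

open Classical

variable {k m : ℕ}

/-- Keep only the increasing listings of the simplices. -/
noncomputable def mono (a : (Fin (k + 1) → Fin m) → ℤ) : (Fin (k + 1) → Fin m) → ℤ :=
  fun σ => if StrictMono σ then a σ else 0

lemma alt_eq_zero {a : (Fin (k + 1) → Fin m) → ℤ}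
    (ha : ∀ (σ : Fin (k + 1) → Fin m) (π : Equiv.Perm (Fin (k + 1))),
      a (σ ∘ π) = ((Equiv.Perm.sign π : ℤˣ) : ℤ) * a σ) {σ : Fin (k + 1) → Fin m}
    (hσ : ¬ Function.Injective σ) : a σ = 0 := by
  unfold Function.Injective at hσ
  push Not at hσ
  obtain ⟨i, j, h1, h2⟩ := hσ
  have h3 := ha σ (Equiv.swap i j)
  rw [Equiv.Perm.sign_swap h2] at h3
  have h4 : σ ∘ (Equiv.swap i j) = σ := by
    funext l
    simp only [Function.comp_apply]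
    rcases eq_or_ne l i with rfl | hl
    · rw [Equiv.swap_apply_left]; exact h1.symm
    · rcases eq_or_ne l j with rfl | hl'
      · rw [Equiv.swap_apply_right]; exact h1
      · rw [Equiv.swap_apply_of_ne_of_ne hl hl']
  rw [h4] at h3
  simp only [Units.val_neg, Units.val_one] at h3
  omega

lemma altC_mono {a : (Fin (k + 1) → Fin m) → ℤ}
    (ha : ∀ (σ : Fin (k + 1) → Fin m) (π : Equiv.Perm (Fin (k + 1))),
      a (σ ∘ π) = ((Equiv.Perm.sign π : ℤˣ) : ℤ) * a σ) (σ : Fin (k + 1) → Fin m) :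
    altC (mono a) σ = a σ := by
  unfold altC mono
  have h1 : ∀ π : Equiv.Perm (Fin (k + 1)), ((Equiv.Perm.sign π : ℤˣ) : ℤ) *
      (if StrictMono (σ ∘ π) then a (σ ∘ π) else 0) =
      if StrictMono (σ ∘ π) then a σ else 0 := by
    intro π
    split_ifs
    · rw [ha, ← mul_assoc, sign_mul_self, one_mul]
    · rw [mul_zero]
  rw [Finset.sum_congr rfl fun π _ => h1 π]
  by_cases hσ : Function.Injective σ
  · have h2 : ∀ π : Equiv.Perm (Fin (k + 1)), StrictMono (σ ∘ π) ↔ π = Tuple.sort σ := by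
      intro π
      constructor
      · intro h
        have h3 := Tuple.comp_sort_eq_comp_iff_monotone.2 h.monotone
        ext i
        have h4 := hσ (congrFun h3 i)
        rw [h4]
      · rintro rfl
        exact (Tuple.monotone_sort σ).strictMono_of_injective
          (hσ.comp (Tuple.sort σ).injective)
    simp only [h2]
    simp
  · rw [alt_eq_zero ha hσ]
    simp

lemma cyc_of_alt {c : (Fin (k + 1) → Fin m) → ℤ}
    (h : ∀ F : Fin k → Fin m, ∑ x, altC c (Fin.cons x F) = 0) : Cyc c := by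
  intro f hf
  have h1 : ∀ σ : Fin (k + 1) → Fin m,
      ∑ π : Equiv.Perm (Fin (k + 1)), ((Equiv.Perm.sign π : ℤˣ) : ℤ) * f (σ ∘ π ∘ Fin.succ) =
        (k.factorial : ℤ) * ∑ i : Fin (k + 1), (-1 : ℤ) ^ (i : ℕ) * f (σ ∘ i.succAbove) := by
    intro σ
    rw [← (permOf_bijective k).sum_comp (fun π : Equiv.Perm (Fin (k + 1)) =>
      ((Equiv.Perm.sign π : ℤˣ) : ℤ) * f (σ ∘ π ∘ Fin.succ)), Fintype.sum_prod_type,
      Finset.mul_sum]
    refine Finset.sum_congr rfl fun i _ => ?_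
    have h2 : ∀ ρ : Equiv.Perm (Fin k), ((Equiv.Perm.sign (permOf (i, ρ)) : ℤˣ) : ℤ) *
        f (σ ∘ permOf (i, ρ) ∘ Fin.succ) = (-1 : ℤ) ^ (i : ℕ) * f (σ ∘ i.succAbove) := by
      intro ρ
      have e : σ ∘ ⇑(permOf (i, ρ)) ∘ Fin.succ = (σ ∘ i.succAbove) ∘ ⇑ρ := by
        funext j
        simp only [Function.comp_apply, permOf_succ]
      rw [e, hf, sign_permOf]
      have := sign_mul_self ρ
      linear_combination ((-1 : ℤ) ^ (i : ℕ) * f (σ ∘ i.succAbove)) * this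
    rw [Finset.sum_congr rfl fun ρ _ => h2 ρ, Finset.sum_const, Finset.card_univ,
      Fintype.card_perm, Fintype.card_fin, nsmul_eq_mul]
  have h3 : (k.factorial : ℤ) * ∑ σ : Fin (k + 1) → Fin m,
      c σ * ∑ i : Fin (k + 1), (-1 : ℤ) ^ (i : ℕ) * f (σ ∘ Fin.succAbove i) = 0 := by
    rw [Finset.mul_sum]
    have h4 : ∀ σ : Fin (k + 1) → Fin m, (k.factorial : ℤ) * (c σ * ∑ i : Fin (k + 1),
        (-1 : ℤ) ^ (i : ℕ) * f (σ ∘ Fin.succAbove i)) =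
        ∑ π : Equiv.Perm (Fin (k + 1)), ((Equiv.Perm.sign π : ℤˣ) : ℤ) *
          (c σ * f (σ ∘ π ∘ Fin.succ)) := by
      intro σ
      rw [mul_left_comm, ← h1 σ, Finset.mul_sum]
      exact Finset.sum_congr rfl fun π _ => by ring
    rw [Finset.sum_congr rfl fun σ _ => h4 σ, Finset.sum_comm]
    have h5 : ∀ π : Equiv.Perm (Fin (k + 1)),
        ∑ σ : Fin (k + 1) → Fin m, ((Equiv.Perm.sign π : ℤˣ) : ℤ) *
          (c σ * f (σ ∘ π ∘ Fin.succ)) =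
        ∑ σ : Fin (k + 1) → Fin m, ((Equiv.Perm.sign (π⁻¹) : ℤˣ) : ℤ) *
          (c (σ ∘ ⇑(π⁻¹)) * f (σ ∘ Fin.succ)) := by
      intro π
      rw [← (Equiv.arrowCongr π (Equiv.refl (Fin m))).sum_comp]
      refine Finset.sum_congr rfl fun σ _ => ?_
      have e1 : (Equiv.arrowCongr π (Equiv.refl (Fin m))) σ = σ ∘ ⇑(π⁻¹) := rfl
      have e2 : (σ ∘ ⇑(π⁻¹)) ∘ ⇑π ∘ Fin.succ = σ ∘ Fin.succ := by
        funext j
        simp
      rw [e1, e2, Equiv.Perm.sign_inv]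
    rw [Finset.sum_congr rfl fun π _ => h5 π]
    refine (Equiv.sum_comp (Equiv.inv (Equiv.Perm (Fin (k + 1))))
      (fun π : Equiv.Perm (Fin (k + 1)) => ∑ σ : Fin (k + 1) → Fin m,
        ((Equiv.Perm.sign π : ℤˣ) : ℤ) * (c (σ ∘ ⇑π) * f (σ ∘ Fin.succ)))).trans ?_
    rw [Finset.sum_comm]
    have h6 : ∀ σ : Fin (k + 1) → Fin m, ∑ π : Equiv.Perm (Fin (k + 1)),
        ((Equiv.Perm.sign π : ℤˣ) : ℤ) * (c (σ ∘ ⇑π) * f (σ ∘ Fin.succ)) =
        altC c σ * f (σ ∘ Fin.succ) := by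
      intro σ
      unfold altC
      rw [Finset.sum_mul]
      exact Finset.sum_congr rfl fun π _ => by ring
    rw [Finset.sum_congr rfl fun σ _ => h6 σ]
    rw [← (Fin.consEquiv (fun _ : Fin (k + 1) => Fin m)).sum_comp, Fintype.sum_prod_type,
      Finset.sum_comm]
    refine Finset.sum_eq_zero fun F _ => ?_
    have h7 : ∀ x : Fin m, altC c ((Fin.consEquiv (fun _ : Fin (k + 1) => Fin m)) (x, F)) *
        f (((Fin.consEquiv (fun _ : Fin (k + 1) => Fin m)) (x, F)) ∘ Fin.succ) =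
        altC c (Fin.cons x F) * f F := by
      intro x
      rfl
    rw [Finset.sum_congr rfl fun x _ => h7 x, ← Finset.sum_mul, h F, zero_mul]
  have h8 : (k.factorial : ℤ) ≠ 0 := by exact_mod_cast (Nat.factorial_pos k).ne'
  exact (mul_eq_zero.1 h3).resolve_left h8

/-! ### Lengths -/

lemma key_ineq {n : ℕ} (x y : Fin n → ℝ) :
    (1 - ∑ j, x j * y j) ^ 2 - (1 - ∑ j, x j ^ 2) * (1 - ∑ j, y j ^ 2) =
      (1 - ∑ j, x j ^ 2) * ∑ j, (x j - y j) ^ 2 + (∑ j, x j * y j - ∑ j, x j ^ 2) ^ 2 := by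
  have h : ∑ j, (x j - y j) ^ 2 = ∑ j, x j ^ 2 + ∑ j, y j ^ 2 - 2 * ∑ j, x j * y j := by
    rw [Finset.mul_sum, ← Finset.sum_add_distrib, ← Finset.sum_sub_distrib]
    exact Finset.sum_congr rfl fun j _ => by ring
  rw [h]
  ring

lemma one_sub_inner_pos {n : ℕ} {x y : Fin n → ℝ} (hx : ∑ j, x j ^ 2 < 1)
    (hy : ∑ j, y j ^ 2 < 1) : 0 < 1 - ∑ j, x j * y j := by
  have h1 : ∑ j, (x j - y j) ^ 2 = ∑ j, x j ^ 2 + ∑ j, y j ^ 2 - 2 * ∑ j, x j * y j := by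
    rw [Finset.mul_sum, ← Finset.sum_add_distrib, ← Finset.sum_sub_distrib]
    exact Finset.sum_congr rfl fun j _ => by ring
  have h2 : 0 ≤ ∑ j, (x j - y j) ^ 2 := Finset.sum_nonneg fun j _ => sq_nonneg _
  linarith

lemma one_le_ratio {n : ℕ} {x y : Fin n → ℝ} (hx : ∑ j, x j ^ 2 < 1) (hy : ∑ j, y j ^ 2 < 1) :
    1 ≤ (1 - ∑ j, x j * y j) / Real.sqrt ((1 - ∑ j, x j ^ 2) * (1 - ∑ j, y j ^ 2)) := by
  have h1 : 0 < (1 - ∑ j, x j ^ 2) * (1 - ∑ j, y j ^ 2) :=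
    mul_pos (by linarith) (by linarith)
  rw [one_le_div (Real.sqrt_pos.2 h1)]
  rw [Real.sqrt_le_left (one_sub_inner_pos hx hy).le]
  have h2 := key_ineq x y
  have h3 : 0 ≤ (1 - ∑ j, x j ^ 2) * ∑ j, (x j - y j) ^ 2 :=
    mul_nonneg (by linarith) (Finset.sum_nonneg fun j _ => sq_nonneg _)
  nlinarith [sq_nonneg (∑ j, x j * y j - ∑ j, x j ^ 2)]

lemma ratio_sq {n : ℕ} {x y : Fin n → ℝ} (hx : ∑ j, x j ^ 2 < 1) (hy : ∑ j, y j ^ 2 < 1) :
    ((1 - ∑ j, x j * y j) / Real.sqrt ((1 - ∑ j, x j ^ 2) * (1 - ∑ j, y j ^ 2))) ^ 2 =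
      (1 - ∑ j, x j * y j) ^ 2 / ((1 - ∑ j, x j ^ 2) * (1 - ∑ j, y j ^ 2)) := by
  have h1 : 0 < (1 - ∑ j, x j ^ 2) * (1 - ∑ j, y j ^ 2) :=
    mul_pos (by linarith) (by linarith)
  rw [div_pow, Real.sq_sqrt h1.le]

lemma sq_eq_of_arcosh {n : ℕ} {x y x' y' : Fin n → ℝ} (hx : ∑ j, x j ^ 2 < 1)
    (hy : ∑ j, y j ^ 2 < 1) (hx' : ∑ j, x' j ^ 2 < 1) (hy' : ∑ j, y' j ^ 2 < 1)
    (h : Real.arcosh ((1 - ∑ j, x j * y j) /
        Real.sqrt ((1 - ∑ j, x j ^ 2) * (1 - ∑ j, y j ^ 2))) =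
      Real.arcosh ((1 - ∑ j, x' j * y' j) /
        Real.sqrt ((1 - ∑ j, x' j ^ 2) * (1 - ∑ j, y' j ^ 2)))) :
    (1 - ∑ j, x j * y j) ^ 2 / ((1 - ∑ j, x j ^ 2) * (1 - ∑ j, y j ^ 2)) =
      (1 - ∑ j, x' j * y' j) ^ 2 / ((1 - ∑ j, x' j ^ 2) * (1 - ∑ j, y' j ^ 2)) := by
  have h1 := Real.arcosh_injOn (mem_Ici.2 (one_le_ratio hx hy))
    (mem_Ici.2 (one_le_ratio hx' hy')) h
  rw [← ratio_sq hx hy, ← ratio_sq hx' hy', h1]

end Pool.Agent.Work.MP_1c91cf_gt.Cone
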