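import Mathlib

/-!
# Flexible polyhedra in hyperbolic space and their generalised oriented volume

The conventions are those of the problem file: `Λ^n` is hyperbolic space, `K` is a finite oriented
closed `(n-1)`-dimensional pseudomanifold given as a simplicial complex (or, more generally, any
integral simplicial cycle), a polyhedron maps every simplex of `K` to the (possibly degenerate)
geodesic simplex spanned by the images of its vertices, `λ_P(x)` is the algebraic intersection
number of a generic curve from `x` to infinity with the cycle `P(K)`, and `V(P) = ∫ λ_P dV`.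
Throughout, `n = k + 1`.
-/

set_option autoImplicit false

open MeasureTheory Set

namespace Pool.Agent.Work.MP_1c91cf_gt.Vol

/-- Hyperbolic space `Λ^n` in the projective (Beltrami-Klein) model: the open unit ball of `ℝ^n`.
The geodesics of this model are the straight segments, so that the (possibly degenerate) geodesic
simplex spanned by finitely many points is their convex hull. -/
def Hyp (n : ℕ) : Set (Fin n → ℝ) := {x | ∑ j, x j ^ 2 < 1}

/-- The hyperbolic distance, `cosh (d(x, y)) = (1 - ⟨x, y⟩) / √((1 - |x|²) (1 - |y|²))`. -/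
noncomputable def hdist {n : ℕ} (x y : Fin n → ℝ) : ℝ :=
  Real.arcosh ((1 - ∑ j, x j * y j) / Real.sqrt ((1 - ∑ j, x j ^ 2) * (1 - ∑ j, y j ^ 2)))

/-- The hyperbolic volume `dV = (1 - |x|²)^(-(n + 1) / 2) dx` of the unit ball. -/
noncomputable def hvol (n : ℕ) : Measure (Fin n → ℝ) :=
  (volume.restrict (Hyp n)).withDensity
    fun x => ENNReal.ofReal ((1 - ∑ j, x j ^ 2) ^ (-((n : ℝ) + 1) / 2))

/-- A finite oriented closed `k`-dimensional pseudomanifold, given as a simplicial complex whose
vertices are numbered by `Fin m`. It is recorded by its facets (the `k`-dimensional simplices) and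
their orientations: `K σ` is `1` or `-1` if `σ 0, …, σ k` are the vertices of a facet, in an order
which is positive or negative for its orientation, and `K σ` is `0` if they are not the vertices of
a facet. (Strong connectedness is not needed and not required.) -/
structure IsPseudomanifold {k m : ℕ} (K : (Fin (k + 1) → Fin m) → ℤ) : Prop where
  /-- a tuple lists a facet (then its sign is `1` or `-1`) or it does not -/
  values : ∀ σ, K σ = 0 ∨ K σ = 1 ∨ K σ = -1
  /-- the sign of an ordering of the vertices changes with the sign of a reordering; in particular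
  it is `0` when a vertex is repeated -/
  alternating : ∀ (σ : Fin (k + 1) → Fin m) (π : Equiv.Perm (Fin (k + 1))),
    K (σ ∘ π) = ((Equiv.Perm.sign π : ℤˣ) : ℤ) * K σ
  /-- closed pseudomanifold: every `(k-1)`-dimensional face of a facet lies in exactly two
  facets -/
  two_facets : ∀ (τ : Fin k → Fin m) (v : Fin m), K (Fin.cons v τ) ≠ 0 →
    ∃! w : Fin m, w ≠ v ∧ K (Fin.cons w τ) ≠ 0
  /-- oriented: these two facets induce opposite orientations on their common face -/
  opposite : ∀ (τ : Fin k → Fin m) (v w : Fin m), v ≠ w → K (Fin.cons v τ) ≠ 0 →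
    K (Fin.cons w τ) ≠ 0 → K (Fin.cons w τ) = -K (Fin.cons v τ)

/-- More generally, an integral simplicial `k`-cycle with vertices in `Fin m`: `K σ` is the
coefficient of the oriented simplex `[σ 0, …, σ k]`. -/
structure IsCycle {k m : ℕ} (K : (Fin (k + 1) → Fin m) → ℤ) : Prop where
  /-- reordering the vertices multiplies an oriented simplex by the sign -/
  alternating : ∀ (σ : Fin (k + 1) → Fin m) (π : Equiv.Perm (Fin (k + 1))),
    K (σ ∘ π) = ((Equiv.Perm.sign π : ℤˣ) : ℤ) * K σ
  /-- the coefficient of `[τ 0, …, τ (k-1)]` in the boundary is zero -/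
  closed : ∀ τ : Fin k → Fin m, ∑ v, K (Fin.cons v τ) = 0

/-- The set `P(K)` for the polyhedron `P` which maps the vertex `v` to `p v`: the union of the
geodesic simplices spanned by the images of the vertices of the facets. -/
def image {k m : ℕ} (K : (Fin (k + 1) → Fin m) → ℤ) (p : Fin m → Fin (k + 1) → ℝ) :
    Set (Fin (k + 1) → ℝ) :=
  {x | ∃ σ, K σ ≠ 0 ∧ x ∈ convexHull ℝ (range (p ∘ σ))}

/-- The geodesic ray from `x` in the direction `u` (a curve from `x` to infinity) meets `S`. -/
def RayMeets {n : ℕ} (x u : Fin n → ℝ) (S : Set (Fin n → ℝ)) : Prop :=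
  ∃ r : ℝ, 0 ≤ r ∧ x + r • u ∈ S

/-- The ray from `x` in the direction `u` is generic for the polyhedron: it does not meet the
images of the `(k-1)`-dimensional faces. (So it meets no degenerate facet, and it crosses a
nondegenerate one at most once, transversally and in the interior.) -/
def Generic {k m : ℕ} (K : (Fin (k + 1) → Fin m) → ℤ) (p : Fin m → Fin (k + 1) → ℝ)
    (x u : Fin (k + 1) → ℝ) : Prop :=
  u ≠ 0 ∧ ∀ σ, K σ ≠ 0 → ∀ i : Fin (k + 1),
    ¬ RayMeets x u (convexHull ℝ (range (p ∘ σ ∘ i.succAbove)))

open Classical in
/-- The algebraic intersection number of the ray from `x` in the direction `u` with the cycle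
`P(K)`: the sum over the facets which meet the ray of the sign of the frame
`u, p (σ 1) - p (σ 0), …, p (σ k) - p (σ 0)` formed by the ray and the oriented facet. Every facet
is counted once, with its vertices in increasing order. -/
noncomputable def intersectionNumber {k m : ℕ} (K : (Fin (k + 1) → Fin m) → ℤ)
    (p : Fin m → Fin (k + 1) → ℝ) (x u : Fin (k + 1) → ℝ) : ℤ :=
  ∑ σ : Fin (k + 1) → Fin m with StrictMono σ,
    K σ * if RayMeets x u (convexHull ℝ (range (p ∘ σ))) then
      (SignType.sign (Matrix.det (Matrix.of
        (Fin.cons u (fun i : Fin k => p (σ i.succ) - p (σ 0)) :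
          Fin (k + 1) → Fin (k + 1) → ℝ))) : ℤ) else 0

open Classical in
/-- `λ_P(x)`, the algebraic intersection number of a generic ray from `x` to infinity with `P(K)`.
It does not depend on the ray, see `result`. -/
noncomputable def lam {k m : ℕ} (K : (Fin (k + 1) → Fin m) → ℤ) (p : Fin m → Fin (k + 1) → ℝ)
    (x : Fin (k + 1) → ℝ) : ℤ :=
  if h : ∃ u, Generic K p x u then intersectionNumber K p x h.choose else 0

/-- The generalised oriented volume `V(P) = ∫ λ_P(x) dV(x)`. -/
noncomputable def genVol {k m : ℕ} (K : (Fin (k + 1) → Fin m) → ℤ)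
    (p : Fin m → Fin (k + 1) → ℝ) : ℝ :=
  ∫ x, (lam K p x : ℝ) ∂(hvol (k + 1))

/-- A continuous family `P t`, `t ∈ T`, of polyhedra `K → Λ^(k+1)` for which every edge of `K` has
constant length. (That `P t` is not congruent to `P s` is not required.) -/
structure IsFlexion {k m : ℕ} {T : Type*} [TopologicalSpace T] (K : (Fin (k + 1) → Fin m) → ℤ)
    (P : T → Fin m → Fin (k + 1) → ℝ) : Prop where
  /-- the family is continuous -/
  continuous : Continuous P
  /-- all vertices lie in `Λ^(k+1)` -/
  mem : ∀ t v, P t v ∈ Hyp (k + 1)
  /-- the edges of every facet have constant length -/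
  edges : ∀ σ, K σ ≠ 0 → ∀ (a b : Fin (k + 1)) (s t : T),
    hdist (P s (σ a)) (P s (σ b)) = hdist (P t (σ a)) (P t (σ b))

end Pool.Agent.Work.MP_1c91cf_gt.Vol
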