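import Pool.Agent.Work.MP_1c91cf_gt.Cone.C06
import Pool.Agent.Work.MP_1c91cf_gt.Cone.Defs

set_option autoImplicit false

open MeasureTheory Set

namespace Pool.Agent.Work.MP_1c91cf_gt.Vol

variable {k m : ℕ}

open Pool.Agent.Work.MP_1c91cf_gt Pool.Agent.Work.MP_1c91cf_gt.Cone

theorem isCycle_of_isPseudomanifold {K : (Fin (k + 1) → Fin m) → ℤ} (hK : IsPseudomanifold K) :
    IsCycle K := by
  refine ⟨hK.alternating, fun τ => ?_⟩
  by_cases h0 : ∀ v, K (Fin.cons v τ) = 0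
  · exact Finset.sum_eq_zero fun v _ => h0 v
  push Not at h0
  obtain ⟨v, hv⟩ := h0
  obtain ⟨w, ⟨hwv, hw⟩, huniq⟩ := hK.two_facets τ v hv
  have h1 : ∀ x ∉ ({v, w} : Finset (Fin m)), K (Fin.cons x τ) = 0 := by
    intro x hx
    by_contra hne
    simp only [Finset.mem_insert, Finset.mem_singleton, not_or] at hx
    exact hx.2 (huniq x ⟨hx.1, hne⟩)
  rw [← Finset.sum_subset (Finset.subset_univ ({v, w} : Finset (Fin m))) (fun x _ hx => h1 x hx),
    Finset.sum_pair (Ne.symm hwv), hK.opposite τ v w (Ne.symm hwv) hv hw]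
  ring

lemma cyc_mono {K : (Fin (k + 1) → Fin m) → ℤ} (hK : IsCycle K) : Cyc (mono K) := by
  refine cyc_of_alt fun F => ?_
  rw [Finset.sum_congr rfl fun x _ => altC_mono hK.alternating (Fin.cons x F)]
  exact hK.closed F

lemma mono_ne {K : (Fin (k + 1) → Fin m) → ℤ} {σ : Fin (k + 1) → Fin m} (h : mono K σ ≠ 0) :
    K σ ≠ 0 := by
  unfold mono at h
  split_ifs at h
  · exact h
  · exact absurd rfl h

lemma generic_iff {K : (Fin (k + 1) → Fin m) → ℤ} {p : Fin m → Fin (k + 1) → ℝ}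
    {x u : Fin (k + 1) → ℝ} : Generic K p x u ↔ u ≠ 0 ∧ ApexOk K p x (x - u) := by
  unfold Generic ApexOk RayMeets
  constructor
  · rintro ⟨hu, h⟩
    exact ⟨hu, fun σ hσ i hmem => h σ hσ i ((ray_iff (p ∘ σ ∘ i.succAbove) x u hu).2 hmem)⟩
  · rintro ⟨hu, h⟩
    exact ⟨hu, fun σ hσ i hmem => h σ hσ i ((ray_iff (p ∘ σ ∘ i.succAbove) x u hu).1 hmem)⟩

lemma off_of_notMem {K : (Fin (k + 1) → Fin m) → ℤ} {p : Fin m → Fin (k + 1) → ℝ}
    {x : Fin (k + 1) → ℝ} (hx : x ∉ image K p) : Off K p x := by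
  intro σ hσ hmem
  exact hx ⟨σ, hσ, hmem⟩

lemma notMem_of_off {K : (Fin (k + 1) → Fin m) → ℤ} {p : Fin m → Fin (k + 1) → ℝ}
    {x : Fin (k + 1) → ℝ} (hx : Off K p x) : x ∉ image K p := by
  rintro ⟨σ, hσ, hmem⟩
  exact hx σ hσ hmem

lemma off_mono {K : (Fin (k + 1) → Fin m) → ℤ} {p : Fin m → Fin (k + 1) → ℝ}
    {x : Fin (k + 1) → ℝ} (hx : Off K p x) : Off (mono K) p x :=
  fun σ hσ => hx σ (mono_ne hσ)

lemma good_mono {K : (Fin (k + 1) → Fin m) → ℤ} {p : Fin m → Fin (k + 1) → ℝ}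
    {x y : Fin (k + 1) → ℝ} (hx : ApexOk K p x y) : ApexOk (mono K) p x y :=
  fun σ hσ => hx σ (mono_ne hσ)

lemma intersectionNumber_eq {K : (Fin (k + 1) → Fin m) → ℤ} {p : Fin m → Fin (k + 1) → ℝ}
    {x u : Fin (k + 1) → ℝ} (hu : u ≠ 0) :
    intersectionNumber K p x u = W (mono K) p x (x - u) := by
  unfold intersectionNumber W RayMeets
  rw [Finset.sum_filter]
  refine Finset.sum_congr rfl fun σ _ => ?_
  rw [G_ray hu (p ∘ σ)]
  unfold mono
  by_cases h : StrictMono σ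
  · rw [if_pos h, if_pos h]
    rfl
  · rw [if_neg h, if_neg h, zero_mul]

lemma exists_generic {K : (Fin (k + 1) → Fin m) → ℤ} {p : Fin m → Fin (k + 1) → ℝ}
    {x : Fin (k + 1) → ℝ} (hx : x ∉ image K p) : ∃ u, Generic K p x u := by
  obtain ⟨u, hu, h⟩ := exists_good (off_of_notMem hx)
  exact ⟨u, generic_iff.2 ⟨hu, h⟩⟩

lemma lam_eq {K : (Fin (k + 1) → Fin m) → ℤ} (hK : IsCycle K) {p : Fin m → Fin (k + 1) → ℝ}
    {x y : Fin (k + 1) → ℝ} (hx : x ∉ image K p) (hy : ApexOk K p x y) :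
    lam K p x = W (mono K) p x y := by
  have h := exists_generic hx
  unfold lam
  rw [dif_pos h]
  have h1 := generic_iff.1 h.choose_spec
  rw [intersectionNumber_eq h1.1]
  exact W_eq (cyc_mono hK) (off_mono (off_of_notMem hx)) (good_mono h1.2) (good_mono hy)

lemma hvol_ac (n : ℕ) : hvol n ≪ volume :=
  (withDensity_absolutelyContinuous _ _).trans
    (Measure.absolutelyContinuous_of_le Measure.restrict_le_self)

lemma cone_subset {p : Fin m → Fin (k + 1) → ℝ} (hp : ∀ v, p v ∈ Hyp (k + 1))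
    (σ : Fin (k + 1) → Fin m) : convexHull ℝ (insert 0 (range (p ∘ σ))) ⊆ Hyp (k + 1) := by
  apply convexHull_min
  · rintro x (rfl | ⟨i, rfl⟩)
    · show ∑ j, (0 : Fin (k + 1) → ℝ) j ^ 2 < 1
      simp
    · exact hp _
  · intro x hx y hy a b ha hb hab
    have hx' : ∑ j, x j ^ 2 < 1 := hx
    have hy' : ∑ j, y j ^ 2 < 1 := hy
    show ∑ j, (a • x + b • y) j ^ 2 < 1
    have h1 : ∑ j, (a • x + b • y) j ^ 2 ≤ a * ∑ j, x j ^ 2 + b * ∑ j, y j ^ 2 := by
      rw [Finset.mul_sum, Finset.mul_sum, ← Finset.sum_add_distrib]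
      refine Finset.sum_le_sum fun j _ => ?_
      simp only [Pi.add_apply, Pi.smul_apply, smul_eq_mul]
      have hb' : b = 1 - a := by linarith
      subst hb'
      nlinarith [mul_nonneg (mul_nonneg ha hb) (sq_nonneg (x j - y j))]
    have h2 : a * ∑ j, x j ^ 2 + b * ∑ j, y j ^ 2 < 1 := by
      rcases ha.eq_or_lt with h0 | h0
      · subst h0
        have : b = 1 := by linarith
        subst this
        linarith
      · nlinarith
    linarith

lemma cone_compact (p : Fin m → Fin (k + 1) → ℝ) (σ : Fin (k + 1) → Fin m) :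
    IsCompact (convexHull ℝ (insert 0 (range (p ∘ σ)))) :=
  ((Set.finite_range (p ∘ σ)).insert 0).isCompact_convexHull (𝕜 := ℝ)

lemma hvol_apply {C : Set (Fin (k + 1) → ℝ)} (hC : MeasurableSet C) (hsub : C ⊆ Hyp (k + 1)) :
    hvol (k + 1) C = hypMeasure k C := by
  unfold hvol hypMeasure
  rw [withDensity_apply _ hC, withDensity_apply _ hC, Measure.restrict_restrict hC,
    inter_eq_left.2 hsub]
  push_cast
  have : -((k : ℝ) + 1 + 1) / 2 = -((k : ℝ) + 2) / 2 := by ring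
  rw [this]

lemma hvol_lt_top {C : Set (Fin (k + 1) → ℝ)} (hC : IsCompact C) (hsub : C ⊆ Hyp (k + 1)) :
    hvol (k + 1) C < ⊤ := by
  have hcont : ContinuousOn (fun x : Fin (k + 1) → ℝ =>
      (1 - ∑ j, x j ^ 2) ^ (-(((k + 1 : ℕ) : ℝ) + 1) / 2)) C := by
    refine ContinuousOn.rpow_const ?_ ?_
    · exact (continuous_const.sub (continuous_finsetSum _ fun j _ =>
        (continuous_apply j).pow 2)).continuousOn
    · intro x hx
      have h1 : ∑ j, x j ^ 2 < 1 := hsub hx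
      exact Or.inl (by linarith)
  obtain ⟨M, hM⟩ := hC.exists_bound_of_continuousOn hcont
  unfold hvol
  rw [withDensity_apply _ hC.measurableSet, Measure.restrict_restrict hC.measurableSet,
    inter_eq_left.2 hsub]
  calc ∫⁻ x in C, ENNReal.ofReal ((1 - ∑ j, x j ^ 2) ^ (-(((k + 1 : ℕ) : ℝ) + 1) / 2))
      ≤ ∫⁻ _ in C, ENNReal.ofReal M := by
        refine setLIntegral_mono' hC.measurableSet fun x hx => ?_
        exact ENNReal.ofReal_le_ofReal ((le_abs_self _).trans (hM x hx))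
    _ = ENNReal.ofReal M * volume C := by rw [setLIntegral_const]
    _ < ⊤ := ENNReal.mul_lt_top ENNReal.ofReal_lt_top hC.measure_lt_top

open Classical in
lemma lam_ae {K : (Fin (k + 1) → Fin m) → ℤ} (hK : IsCycle K) (p : Fin m → Fin (k + 1) → ℝ) :
    (fun x => (lam K p x : ℝ)) =ᵐ[hvol (k + 1)] fun x =>
      ∑ σ : Fin (k + 1) → Fin m with StrictMono σ,
        ((K σ : ℝ) * ((SignType.sign (Matrix.det (Matrix.of (p ∘ σ))) : ℤ) : ℝ)) *
          (convexHull ℝ (insert 0 (range (p ∘ σ)))).indicator (fun _ => (1 : ℝ)) x := by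
  have h1 : ∀ᵐ x ∂(hvol (k + 1)), Off K p x := (hvol_ac (k + 1)).ae_le (off_ae K p)
  have h2 : ∀ᵐ x ∂(hvol (k + 1)), ApexOk K p x 0 := (hvol_ac (k + 1)).ae_le (good_zero_ae K p)
  filter_upwards [h1, h2] with x hx hx0
  rw [lam_eq hK (notMem_of_off hx) hx0]
  unfold W
  push_cast
  rw [Finset.sum_filter]
  refine Finset.sum_congr rfl fun σ _ => ?_
  rw [G_zero x (p ∘ σ)]
  unfold mono
  by_cases h : StrictMono σ
  · rw [if_pos h, if_pos h, indicator_apply]
    split_ifs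
    · simp
    · simp
  · rw [if_neg h, if_neg h]
    simp

open Classical in
lemma integrable_term {p : Fin m → Fin (k + 1) → ℝ} (hp : ∀ v, p v ∈ Hyp (k + 1))
    (σ : Fin (k + 1) → Fin m) :
    Integrable ((convexHull ℝ (insert 0 (range (p ∘ σ)))).indicator (fun _ => (1 : ℝ)))
      (hvol (k + 1)) := by
  rw [integrable_indicator_iff (cone_compact p σ).measurableSet]
  exact integrableOn_const (hvol_lt_top (cone_compact p σ) (cone_subset hp σ)).ne

open Classical in
lemma genVol_eq {K : (Fin (k + 1) → Fin m) → ℤ} (hK : IsCycle K) {p : Fin m → Fin (k + 1) → ℝ}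
    (hp : ∀ v, p v ∈ Hyp (k + 1)) :
    Integrable (fun x => (lam K p x : ℝ)) (hvol (k + 1)) ∧
    genVol K p = ∑ σ : Fin (k + 1) → Fin m with StrictMono σ,
      (K σ : ℝ) * ((SignType.sign (Matrix.det (Matrix.of (p ∘ σ))) : ℤ) : ℝ) *
        (hvol (k + 1)).real (convexHull ℝ (insert 0 (range (p ∘ σ)))) := by
  have h1 := lam_ae hK p
  have h2 : ∀ σ ∈ Finset.univ.filter (fun σ : Fin (k + 1) → Fin m => StrictMono σ),
      Integrable (fun x => ((K σ : ℝ) *
        ((SignType.sign (Matrix.det (Matrix.of (p ∘ σ))) : ℤ) : ℝ)) *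
          (convexHull ℝ (insert 0 (range (p ∘ σ)))).indicator (fun _ => (1 : ℝ)) x)
        (hvol (k + 1)) := fun σ _ => (integrable_term hp σ).const_mul _
  refine ⟨(integrable_finsetSum _ h2).congr h1.symm, ?_⟩
  unfold genVol
  rw [integral_congr_ae h1, integral_finsetSum _ h2]
  refine Finset.sum_congr rfl fun σ _ => ?_
  rw [integral_const_mul, integral_indicator_const _ (cone_compact p σ).measurableSet]
  simp

/-! ### The bellows theorem -/

lemma cone_sum {K : (Fin (k + 1) → Fin m) → ℤ} (p : Fin m → Fin (k + 1) → ℝ)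
    (hp : ∀ v, p v ∈ Hyp (k + 1)) :
    ∑ σ : Fin (k + 1) → Fin m, (mono K σ : ℝ) *
        Real.sign (Matrix.det (Matrix.of (fun i j => p (σ i) j))) *
        ((hypMeasure k) (convexHull ℝ (insert 0 (Set.range (fun i => p (σ i)))))).toReal =
      ∑ σ : Fin (k + 1) → Fin m with StrictMono σ,
        (K σ : ℝ) * ((SignType.sign (Matrix.det (Matrix.of (p ∘ σ))) : ℤ) : ℝ) *
        (hvol (k + 1)).real (convexHull ℝ (insert 0 (range (p ∘ σ)))) := by
  classical
  rw [Finset.sum_filter]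
  refine Finset.sum_congr rfl fun σ _ => ?_
  have h1 : Real.sign (Matrix.det (Matrix.of (fun i j => p (σ i) j))) =
      ((SignType.sign (Matrix.det (Matrix.of (p ∘ σ))) : ℤ) : ℝ) := by
    have e : (Matrix.of (fun i j => p (σ i) j)) = Matrix.of (p ∘ σ) := rfl
    rw [e]
    rcases lt_trichotomy (Matrix.det (Matrix.of (p ∘ σ))) 0 with h | h | h
    · rw [Real.sign_of_neg h, sign_neg h]; simp
    · rw [h, Real.sign_zero, sign_zero]; simp
    · rw [Real.sign_of_pos h, sign_pos h]; simp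
  have h2 : ((hypMeasure k) (convexHull ℝ (insert 0 (Set.range (fun i => p (σ i)))))).toReal =
      (hvol (k + 1)).real (convexHull ℝ (insert 0 (range (p ∘ σ)))) := by
    rw [Measure.real, hvol_apply (cone_compact p σ).measurableSet (cone_subset hp σ)]
    rfl
  rw [h1, h2]
  unfold mono
  split_ifs
  · rfl
  · simp

/-- The bellows theorem for families over the real line. -/
lemma bellows_real {q : ℕ} (hq : 1 ≤ q) {K : (Fin (q + 1 + 1) → Fin m) → ℤ} (hK : IsCycle K)
    {P : ℝ → Fin m → Fin (q + 1 + 1) → ℝ} (hP : IsFlexion K P) (s t : ℝ) :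
    genVol K (P s) = genVol K (P t) := by
  rw [(genVol_eq hK (hP.mem s)).2, (genVol_eq hK (hP.mem t)).2, ← cone_sum (P s) (hP.mem s),
    ← cone_sum (P t) (hP.mem t)]
  refine bellows hq (mono K) (cyc_mono hK) P hP.continuous (fun t v => hP.mem t v) ?_ s t
  intro σ hσ a b s t
  exact sq_eq_of_arcosh (hP.mem s _) (hP.mem s _) (hP.mem t _) (hP.mem t _)
    (hP.edges σ (mono_ne hσ) a b s t)

theorem bellows_general (hk : 2 ≤ k) {K : (Fin (k + 1) → Fin m) → ℤ} (hK : IsCycle K)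
    {T : Type*} [TopologicalSpace T] [PathConnectedSpace T] {P : T → Fin m → Fin (k + 1) → ℝ}
    (hP : IsFlexion K P) (s t : T) : genVol K (P s) = genVol K (P t) := by
  obtain ⟨q, rfl⟩ : ∃ q, k = q + 1 := ⟨k - 1, by omega⟩
  let γ := PathConnectedSpace.somePath s t
  have h := bellows_real (P := fun r : ℝ => P (γ.extend r)) (by omega) hK
    ⟨hP.continuous.comp γ.continuous_extend, fun r v => hP.mem _ v,
      fun σ hσ a b r r' => hP.edges σ hσ a b _ _⟩ 0 1
  simpa using h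

end Pool.Agent.Work.MP_1c91cf_gt.Vol
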